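import Pool.Agent.W516.CMF.Defs
import Pool.Agent.W655.DK.SUM
import Pool.Agent.W440.DK.KILL

/-! CMF-HYPP: the hyperbolic part of the restriction to a stable subspace. -/

set_option autoImplicit false

namespace Pool.Agent.W681.CMF

open Module Polynomial
open _root_.Pool.Agent.W516.K3

variable {V T : Type} [AddCommGroup V] [Module ℝ V] [AddCommGroup T] [Module ℝ T]

/-- left composition -/
noncomputable def L (T : Type) [AddCommGroup T] [Module ℝ T] (x : Module.End ℝ V) :
    Module.End ℝ (T →ₗ[ℝ] V) where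
  toFun q := x ∘ₗ q
  map_add' p q := by ext v; simp
  map_smul' c q := by ext v; simp

/-- right composition -/
noncomputable def R (V : Type) [AddCommGroup V] [Module ℝ V] (x : Module.End ℝ T) :
    Module.End ℝ (T →ₗ[ℝ] V) where
  toFun q := q ∘ₗ x
  map_add' p q := by ext v; simp
  map_smul' c q := by ext v; simp

theorem L_apply (x : Module.End ℝ V) (q : T →ₗ[ℝ] V) (t : T) : L T x q t = x (q t) := rfl

theorem R_apply (x : Module.End ℝ T) (q : T →ₗ[ℝ] V) (t : T) : R V x q t = q (x t) := rfl

theorem L_pow (x : Module.End ℝ V) (m : ℕ) : L T x ^ m = L T (x ^ m) := by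
  induction m with
  | zero => ext q t; simp [L_apply]
  | succ m ih =>
    rw [pow_succ, ih, pow_succ]
    ext q t
    simp [L_apply]

theorem R_pow (x : Module.End ℝ T) (m : ℕ) : R V x ^ m = R V (x ^ m) := by
  induction m with
  | zero => ext q t; simp [R_apply]
  | succ m ih =>
    rw [pow_succ, ih, pow_succ']
    ext q t
    simp [R_apply]

theorem L_aeval (x : Module.End ℝ V) (p : ℝ[X]) : aeval (L T x) p = L T (aeval x p) := by
  induction p using Polynomial.induction_on' with
  | add p q hp hq =>
    rw [map_add, map_add, hp, hq]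
    ext q t
    simp [L_apply]
  | monomial m c =>
    rw [aeval_monomial, aeval_monomial, ← Algebra.smul_def, ← Algebra.smul_def, L_pow]
    ext q t
    simp [L_apply]

theorem R_aeval (x : Module.End ℝ T) (p : ℝ[X]) : aeval (R V x) p = R V (aeval x p) := by
  induction p using Polynomial.induction_on' with
  | add p q hp hq =>
    rw [map_add, map_add, hp, hq]
    ext q t
    simp [R_apply]
  | monomial m c =>
    rw [aeval_monomial, aeval_monomial, ← Algebra.smul_def, ← Algebra.smul_def, R_pow]
    ext q t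
    simp [R_apply]

theorem isHyp_neg {y : Module.End ℝ V} (hy : IsHyp y) : IsHyp (-y) := by
  unfold IsHyp at *
  rw [eq_top_iff, ← hy]
  refine iSup_le fun μ => le_trans ?_ (le_iSup _ (-μ))
  intro v hv
  rw [Module.End.mem_eigenspace_iff] at hv ⊢
  rw [LinearMap.neg_apply, hv, neg_smul]

theorem noRe_neg {z : Module.End ℝ V} (hz : NoRe z) : NoRe (-z) := by
  intro a c ha v hv
  apply hz (-a) c (neg_ne_zero.2 ha) v
  rw [LinearMap.neg_apply, LinearMap.neg_apply, map_neg, neg_neg] at hv
  rw [← hv]
  congr 1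
  · rw [smul_neg, mul_neg, neg_smul]
  · rw [neg_sq]

theorem T_HYPP : Pool.Agent.W516.CMF.S_HYPP := by
  intro V T _ _ _ _ _ _ i _ y z y₁ z₁ hyz hy hz hyz₁ hy₁ hz₁ hi t
  obtain ⟨h1, h2, h3, h4⟩ := Pool.Agent.W655.DK.T_SUM
  have hLy : IsHyp (L T y) := by
    apply h4 V _ y (L T y) _ hy
    intro p hp
    rw [L_aeval, hp]
    ext q t
    simp [L_apply]
  have hLz : NoRe (L T z) := by
    apply h3 V _ z (L T z) _ hz
    intro p hp
    rw [L_aeval, hp]
    ext q t
    simp [L_apply]
  have hRy : IsHyp (R V (-y₁)) := by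
    apply h4 T _ (-y₁) (R V (-y₁)) _ (isHyp_neg hy₁)
    intro p hp
    rw [R_aeval, hp]
    ext q t
    simp [R_apply]
  have hRz : NoRe (R V (-z₁)) := by
    apply h3 T _ (-z₁) (R V (-z₁)) _ (noRe_neg hz₁)
    intro p hp
    rw [R_aeval, hp]
    ext q t
    simp [R_apply]
  have c1 : ∀ (a : Module.End ℝ V) (b : Module.End ℝ T), L T a * R V b = R V b * L T a := by
    intro a b
    ext q t
    simp [L_apply, R_apply]
  have hY : IsHyp (L T y + R V (-y₁)) := h2 _ _ _ (c1 _ _) hLy hRy
  have hZ : NoRe (L T z + R V (-z₁)) := h1 _ _ _ (c1 _ _) hLz hRz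
  have hc : (L T y + R V (-y₁)) * (L T z + R V (-z₁)) =
      (L T z + R V (-z₁)) * (L T y + R V (-y₁)) := by
    have e1 : L T y * L T z = L T z * L T y := by
      ext q t
      exact LinearMap.congr_fun hyz (q t)
    have e2 : R V (-y₁) * R V (-z₁) = R V (-z₁) * R V (-y₁) := by
      ext q t
      simp only [Module.End.mul_apply, R_apply, LinearMap.neg_apply, map_neg, neg_neg]
      exact congrArg q (LinearMap.congr_fun hyz₁ t).symm
    rw [add_mul, mul_add, mul_add, add_mul, mul_add, mul_add, e1, e2, c1 y (-z₁), c1 z (-y₁)]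
    abel
  have key := Pool.Agent.W440.DK.kill_core hc hY hZ (φ := i) (by
    ext t
    have := hi t
    simp only [LinearMap.add_apply, map_add] at this
    simp only [LinearMap.add_apply, L_apply, R_apply, LinearMap.neg_apply, map_neg,
      LinearMap.zero_apply]
    have e : y (i t) + -i (y₁ t) + (z (i t) + -i (z₁ t)) =
      (y (i t) + z (i t)) - (i (y₁ t) + i (z₁ t)) := by abel
    rw [e, this, sub_self])
  have := LinearMap.congr_fun key t
  simp only [LinearMap.add_apply, L_apply, R_apply, LinearMap.neg_apply, map_neg,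
    LinearMap.zero_apply] at this
  exact add_neg_eq_zero.1 this

end Pool.Agent.W681.CMF
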